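import Mathlib
import Pool.Agent.Helper56.SKW.Defs
import Pool.Agent.Helper56.SKW.Ado
import Pool.Agent.Helper54.SKW.Defs
import Pool.Agent.Helper54.SKW.Fin

/-!
# The first super Kac–Weisfeiler conjecture for solvable Lie superalgebras

Let `k` be an algebraically closed field of characteristic `p > 2` and let `g = g₀ ⊕ g₁` be a
finite dimensional solvable Lie superalgebra over `k` in which every `(ad x) ^ p`, `x ∈ g₀`, is
`ad x'` for some `x' ∈ g₀` (every restricted Lie superalgebra is of this kind).  Then the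
dimension of every irreducible graded `g`-module is `p ^ (b₀ / 2) * 2 ^ ⌈b₁ / 2⌉` for some linear
form `θ` on `g₀`, where `b₀ = bEven g θ` and `b₁ = bOdd g θ`, and the largest dimension of an
irreducible graded module is the maximum of these numbers over all `θ`.

The dimension formula is proved by induction on the dimension of the module `V`, for all solvable
restricted Lie superalgebras `L` of endomorphisms of `V` containing the scalars.  If `L` has a
supercommutative ideal `I` which is not contained in the scalars, then `V` has a weight vector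
for `I`, the weight space is an irreducible module for the stabiliser of the weight, and `V` has
the dimension of an induced module (the associated graded space of a filtration of `V` is a
module over a Weyl and Clifford algebra generated by vacuum vectors).  If there is no such ideal,
`V` has dimension one, or dimension two and `L` is spanned by `1` and an odd operator.
-/

namespace Pool.Agent.Helper21.KW.Old.SolvableSuper

open Module Pool.Agent.Helper56.SKW Pool.Agent.Helper54.SKW

universe u v

/-- **The first super Kac–Weisfeiler conjecture for solvable Lie superalgebras.** -/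
theorem result {k : Type u} [Field k] [IsAlgClosed k] (p : ℕ) [Fact p.Prime] [CharP k p]
    (hp : 2 < p) {L₀ L₁ : Type*} [AddCommGroup L₀] [Module k L₀] [AddCommGroup L₁] [Module k L₁]
    [FiniteDimensional k L₀] [FiniteDimensional k L₁] (g : LieSuper k L₀ L₁)
    (hres : ∀ x, ∃ x', g.b00 x' = (g.b00 x) ^ p ∧ g.b01 x' = (g.b01 x) ^ p)
    (hsolv : IsSolvable g) :
    (∀ (V : Type v) [AddCommGroup V] [Module k V] [FiniteDimensional k V]
      (M : SuperModule g V), M.IsIrreducible →
      ∃ θ : L₀ →ₗ[k] k, finrank k V = p ^ (bEven g θ / 2) * 2 ^ ((bOdd g θ + 1) / 2)) ∧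
    ∃ θ : L₀ →ₗ[k] k,
      (∀ θ' : L₀ →ₗ[k] k, p ^ (bEven g θ' / 2) * 2 ^ ((bOdd g θ' + 1) / 2) ≤
        p ^ (bEven g θ / 2) * 2 ^ ((bOdd g θ + 1) / 2)) ∧
      (∃ (V : Type u) (_ : AddCommGroup V) (_ : Module k V) (_ : FiniteDimensional k V)
        (M : SuperModule g V), M.IsIrreducible ∧
        finrank k V = p ^ (bEven g θ / 2) * 2 ^ ((bOdd g θ + 1) / 2)) ∧
      (∀ (V : Type v) [AddCommGroup V] [Module k V] [FiniteDimensional k V]
        (M : SuperModule g V), M.IsIrreducible →
        finrank k V ≤ p ^ (bEven g θ / 2) * 2 ^ ((bOdd g θ + 1) / 2)) := by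
  have h2 : (2 : k) ≠ 0 := by
    intro h0
    have h1 : ((2 : ℕ) : k) = 0 := by exact_mod_cast h0
    rw [CharP.cast_eq_zero_iff k p] at h1
    have := Nat.le_of_dvd (by norm_num) h1
    omega
  refine ⟨fun V _ _ _ M hM => irr_dim p h2 g hres hsolv M hM, ?_⟩
  -- a form with the largest value
  obtain ⟨θ, hθ⟩ : ∃ θ : L₀ →ₗ[k] k, ∀ θ' : L₀ →ₗ[k] k,
      p ^ (bEven g θ' / 2) * 2 ^ ((bOdd g θ' + 1) / 2) ≤
        p ^ (bEven g θ / 2) * 2 ^ ((bOdd g θ + 1) / 2) := by
    let f : (L₀ →ₗ[k] k) → ℕ := fun θ => p ^ (bEven g θ / 2) * 2 ^ ((bOdd g θ + 1) / 2)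
    have hb : ∀ θ, f θ ≤ p ^ finrank k L₀ * 2 ^ (finrank k L₁ + 1) := by
      intro θ
      apply Nat.mul_le_mul
      · apply Nat.pow_le_pow_right (by omega)
        unfold bEven
        omega
      · apply Nat.pow_le_pow_right (by norm_num)
        unfold bOdd
        omega
    have hfin : (Set.range f).Finite :=
      (Set.finite_Iic (p ^ finrank k L₀ * 2 ^ (finrank k L₁ + 1))).subset (by
        rintro _ ⟨θ, rfl⟩
        exact hb θ)
    obtain ⟨_, ⟨θ, rfl⟩, hmax⟩ := hfin.exists_maximal (Set.range_nonempty f)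
    refine ⟨θ, fun θ' => ?_⟩
    rcases le_total (f θ') (f θ) with h | h
    · exact h
    · exact hmax ⟨θ', rfl⟩ h
  refine ⟨θ, hθ, ?_, ?_⟩
  · obtain ⟨V, i1, i2, i3, M, hM, hd⟩ := main_general p (by omega) g θ
    refine ⟨V, i1, i2, i3, M, hM, ?_⟩
    have := hM.1
    obtain ⟨θ', hθ'⟩ := irr_dim p h2 g hres hsolv M hM
    refine le_antisymm ?_ (Nat.le_of_dvd finrank_pos hd)
    rw [hθ']
    exact hθ θ'
  · intro V _ _ _ M hM
    obtain ⟨θ', hθ'⟩ := irr_dim p h2 g hres hsolv M hM
    rw [hθ']
    exact hθ θ'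

end Pool.Agent.Helper21.KW.Old.SolvableSuper
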